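import Pool.Agent.Results.MP_f10232_lc.Undecidable
import Pool.Agent.Y669.TA.OneRule

/-! Termination of a single linear rule with two constants and one further symbol is not
semidecidable. Stronger form of `Undecidable`. -/

set_option autoImplicit false

namespace Pool.Agent.Results.MP_f10232_lc.NotSemidecidable

open Pool.Agent.Helper462.OneRule

/-- `x = (m, c, c')` where `c` and `c'` are the codes of terms `l` and `r` over the signature with
two constants and one symbol of arity `m + 1` such that `l → r` is a linear rewrite rule and is
terminating. -/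
def TerminatingRule (x : ℕ × List ℕ × List ℕ) : Prop :=
  ∃ l r : Term [0, 0, x.1 + 1], Term.IsRule l r ∧ Term.Linear l ∧ Term.Linear r ∧
    l.code = x.2.1 ∧ r.code = x.2.2 ∧ Term.Terminating l r

/-- (1) For every recursively enumerable set `W` there is a computable function which gives for
every number `k` a number `m k` and a linear rewrite rule `l k → r k` over the signature with two
constants and one symbol of arity `m k + 1` such that the rule is terminating if and only if `k`
is not in `W`.
(2) The set of the terminating linear rewrite rules over the signatures with two constants and one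
further symbol is not recursively enumerable.
(3) The earlier result: the code of a term determines the term, and no algorithm decides, for all
signatures and linear rules, whether the rule is terminating. -/
theorem result :
    (∀ W : ℕ → Prop, REPred W → ∃ (m : ℕ → ℕ) (l r : ∀ k, Term [0, 0, m k + 1]),
      Computable (fun k => (m k, (l k).code, (r k).code)) ∧
      ∀ k, Term.IsRule (l k) (r k) ∧ Term.Linear (l k) ∧ Term.Linear (r k) ∧
        (Term.Terminating (l k) (r k) ↔ ¬ W k)) ∧
    (¬ REPred TerminatingRule) ∧
    (∀ σ : List ℕ, Function.Injective (Term.code : Term σ → List ℕ)) ∧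
    ¬ ∃ D : List ℕ × List ℕ × List ℕ → Bool, Computable D ∧
      ∀ (σ : List ℕ) (l r : Term σ), Term.IsRule l r → Term.Linear l → Term.Linear r →
        (D (σ, Term.code l, Term.code r) = true ↔ Term.Terminating l r) := by
  obtain ⟨m, l, r, hc, hr, hT⟩ := Pool.Agent.Y669.TA.OneRule.exists_rules'
  have key : ∀ W : ℕ → Prop, REPred W → ∃ (m : ℕ → ℕ) (l r : ∀ k, Term [0, 0, m k + 1]),
      Computable (fun k => (m k, (l k).code, (r k).code)) ∧
      ∀ k, Term.IsRule (l k) (r k) ∧ Term.Linear (l k) ∧ Term.Linear (r k) ∧
        (Term.Terminating (l k) (r k) ↔ ¬ W k) := by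
    intro W hW
    obtain ⟨g, hg, h⟩ := Pool.Agent.Y669.TA.SysU.universal hW
    refine ⟨fun k => m (g k), fun k => l (g k), fun k => r (g k), hc.comp hg, fun k => ?_⟩
    refine ⟨(hr _).1, (hr _).2.1, (hr _).2.2, ?_⟩
    have h1 : ¬ Term.Terminating (l (g k)) (r (g k)) ↔ W k := (hT (g k)).trans (h k).symm
    rw [← h1, not_not]
  refine ⟨key, fun hre => ?_, Pool.Agent.Results.MP_f10232_lc.Undecidable.result⟩
  obtain ⟨W, hW, hco⟩ := Pool.Agent.Y669.TA.SysU.exists_re_not_co
  obtain ⟨m', l', r', hc', h'⟩ := key W hW
  apply hco
  have h2 : REPred fun k => TerminatingRule (m' k, (l' k).code, (r' k).code) :=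
    Partrec.comp hre hc'
  refine h2.of_eq fun k => ?_
  constructor
  · rintro ⟨a, b, -, -, -, e1, e2, ht⟩
    have e3 : a = l' k := code_injective e1
    have e4 : b = r' k := code_injective e2
    subst e3
    subst e4
    exact (h' k).2.2.2.1 ht
  · intro hk
    exact ⟨l' k, r' k, (h' k).1, (h' k).2.1, (h' k).2.2.1, rfl, rfl, (h' k).2.2.2.2 hk⟩

end Pool.Agent.Results.MP_f10232_lc.NotSemidecidable
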